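import Pool.Agent.VF.XiFin2

/-!
Held (plan V, stage 2): the correlation length of the self-avoiding walk on the hexagonal lattice up to constants.
`G z x` is the generating function of the self-avoiding walks from `0` to `x`, `zc` the critical fugacity, `xi z`
the correlation length: the infimum of the `s > 0` with `G z x ≤ C exp (-|x| / s)` for all `x`.
-/

set_option autoImplicit false
open scoped Classical
open Filter Topology

namespace Pool.Agent.HeldV.CorrelationLengthHex2

/-- The step number `i` (starting with `0`) in the direction `a`: the edges of the hexagonal lattice with unit steps. -/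
noncomputable def step (i : ℕ) (a : Fin 3) : ℂ :=
  (-1 : ℂ) ^ i * Complex.exp (2 * (Real.pi : ℂ) * Complex.I * ((a : ℕ) : ℂ) / 3)

/-- The position `w_k` after `k` steps of the walk with the directions `s`. -/
noncomputable def pos {n : ℕ} (s : Fin n → Fin 3) (k : ℕ) : ℂ :=
  ∑ i ∈ Finset.univ.filter (fun i : Fin n => (i : ℕ) < k), step (i : ℕ) (s i)

/-- The self-avoiding walks with `n` steps. -/
noncomputable def saw (n : ℕ) : Finset (Fin n → Fin 3) :=
  Finset.univ.filter (fun s => ∀ j k : ℕ, j ≤ n → k ≤ n → pos s j = pos s k → j = k)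

/-- The critical fugacity: the inverse of the growth constant. -/
noncomputable def zc : ℝ := 1 / ⨅ n : {n : ℕ // 1 ≤ n}, ((saw n.1).card : ℝ) ^ ((1 : ℝ) / (n.1 : ℝ))

/-- The generating function of the self-avoiding walks from `0` to `x`. -/
noncomputable def G (z : ℝ) (x : ℂ) : ℝ :=
  ∑' n : ℕ, (((saw n).filter (fun s => pos s n = x)).card : ℝ) * z ^ n

/-- The correlation length. -/
noncomputable def xi (z : ℝ) : ℝ := sInf {s : ℝ | 0 < s ∧ ∃ C : ℝ, ∀ x : ℂ, G z x ≤ C * Real.exp (-(‖x‖ / s))}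

theorem saw_eq (n : ℕ) : saw n = SawNu.saw step n := by
  ext s
  unfold saw SawNu.saw
  rw [Finset.mem_filter, Finset.mem_filter]
  refine and_congr_right fun _ => ⟨fun h j k hjk => ?_, fun h j k hj hk hjk => ?_⟩
  · exact Fin.ext (h j k (Nat.lt_succ_iff.1 j.2) (Nat.lt_succ_iff.1 k.2) hjk)
  · exact congrArg Fin.val (h ⟨j, Nat.lt_succ_of_le hj⟩ ⟨k, Nat.lt_succ_of_le hk⟩ hjk)

/-- **Stage 2**: from the sharp mean length of the bridges and the weight of the bridges with few letters. -/
theorem result_of (hM : ∃ C : ℝ, 0 < C ∧ HexObs.T2.MeanLen (4 / 3) C) (hAS : VF.AShort) :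
    ∃ c : ℝ, 0 < c ∧ ∀ᶠ z in 𝓝[<] zc,
      c * (zc - z) ^ (-(3 / 4) : ℝ) ≤ xi z ∧ xi z ≤ c⁻¹ * (zc - z) ^ (-(3 / 4) : ℝ) := by
  refine VF.xi_fin2 hM hAS (f := step)
    (fun _ _ => rfl) (μ := ⨅ n : {n : ℕ // 1 ≤ n}, ((saw n.1).card : ℝ) ^ ((1 : ℝ) / (n.1 : ℝ))) ?_ (G := G) ?_
    (ξ := xi) (fun _ => rfl)
  · simp only [saw_eq]
  · intro z x
    unfold G
    refine tsum_congr fun n => ?_
    rw [saw_eq]
    rfl

end Pool.Agent.HeldV.CorrelationLengthHex2
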